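import Pool.Agent.TH998.Mex.Fin

/-!
# Small cliques in `K_{a,b}`-free graphs with `m` edges

For `a ≥ 2`, `3 ≤ s ≤ a + 1` and `b > (s - 2) (a - 1)!`, the largest number of copies of `K_s` in a
`K_{a,b}`-free graph with `m` edges is of order exactly `m ^ (s (2 a + 1 - s) / (2 (2 a - 1)))`. The
same holds for each graph `F` which contains such a `K_{a,b'}` and is contained in a graph obtained
from a larger `K_{a,b}` by repeatedly adding a vertex joined to the two ends of an edge. The upper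
bound needs no lower bound for `b`.
-/

open Filter Asymptotics SimpleGraph Pool.Agent.H63R3.PTT Pool.Agent.TH998.Mex

namespace Pool.Agent.Results.MP_80f86c_co.CompleteBipartite

theorem result :
    (∀ a b s : ℕ, 2 ≤ a → 3 ≤ s → s ≤ a + 1 → (s - 2) * (a - 1).factorial < b →
      (fun m : ℕ => (mex s m (completeBipartiteGraph (Fin a) (Fin b)) : ℝ)) =Θ[atTop]
        (fun m : ℕ => (m : ℝ) ^ ((s : ℝ) * (2 * a + 1 - s) / (2 * (2 * a - 1))))) ∧
    (∀ a b b' s : ℕ, 2 ≤ a → 3 ≤ s → s ≤ a + 1 → (s - 2) * (a - 1).factorial < b' →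
      ∀ (W : Type) [Finite W] (F : SimpleGraph W),
        (completeBipartiteGraph (Fin a) (Fin b')).IsContained F → IsStacked a b F →
        (fun m : ℕ => (mex s m F : ℝ)) =Θ[atTop]
          (fun m : ℕ => (m : ℝ) ^ ((s : ℝ) * (2 * a + 1 - s) / (2 * (2 * a - 1))))) ∧
    (∀ a b s : ℕ, 2 ≤ a → 3 ≤ s → s ≤ a + 1 →
      ∀ (W : Type) [Finite W] (F : SimpleGraph W), IsStacked a b F →
        (fun m : ℕ => (mex s m F : ℝ)) =O[atTop]
          (fun m : ℕ => (m : ℝ) ^ ((s : ℝ) * (2 * a + 1 - s) / (2 * (2 * a - 1))))) := by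
  refine ⟨?_, ?_, ?_⟩
  · intro a b s ha hs hsa hb
    exact stacked_theta ha hs hsa hb (isStacked_self a b) (IsContained.refl _)
  · intro a b b' s ha hs hsa hb W _ F hKF hF
    exact stacked_theta ha hs hsa hb hF hKF
  · intro a b s ha hs hsa W _ F hF
    exact stacked_upper_small ha (by omega) hsa hF

end Pool.Agent.Results.MP_80f86c_co.CompleteBipartite
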