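import Pool.Agent.TH998.Mex.Fin

/-!
# Cliques of every size in `K_{3,b}`-free graphs with `m` edges

For `s = 3, 4, 5` and `b ≥ 3`, and for each `s ≥ 3` and `b > 2 (s - 2)`, the largest number of
copies of `K_s` in a `K_{3,b}`-free graph with `m` edges is of order exactly `m ^ (6 / 5)`. This
settles `K_{3,3}` for all `s`. The same holds for each graph `F` which contains such a `K_{3,b'}`
and is contained in a graph obtained from a larger `K_{3,b}` by repeatedly adding a vertex joined to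
the two ends of an edge.
-/

open Filter Asymptotics SimpleGraph Pool.Agent.H63R3.PTT Pool.Agent.TH998.Mex

namespace Pool.Agent.Results.MP_80f86c_co.CompleteBipartiteThree

theorem result :
    (∀ b s : ℕ, 3 ≤ s → (s ≤ 5 ∧ 3 ≤ b) ∨ 2 * (s - 2) < b →
      (fun m : ℕ => (mex s m (completeBipartiteGraph (Fin 3) (Fin b)) : ℝ)) =Θ[atTop]
        (fun m : ℕ => (m : ℝ) ^ ((6 : ℝ) / 5))) ∧
    (∀ s : ℕ, 6 ≤ s → ∀ m, mex s m (completeBipartiteGraph (Fin 3) (Fin 3)) = 0) ∧
    (∀ b b' s : ℕ, 3 ≤ s → (s ≤ 5 ∧ 3 ≤ b') ∨ 2 * (s - 2) < b' →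
      ∀ (W : Type) [Finite W] (F : SimpleGraph W),
        (completeBipartiteGraph (Fin 3) (Fin b')).IsContained F → IsStacked 3 b F →
        (fun m : ℕ => (mex s m F : ℝ)) =Θ[atTop] (fun m : ℕ => (m : ℝ) ^ ((6 : ℝ) / 5))) := by
  refine ⟨?_, ?_, ?_⟩
  · intro b s hs hb
    exact theta_three hs hb (isStacked_self 3 b) (IsContained.refl _)
  · intro s hs m
    exact mex_eq_zero _ (by simpa using hs) m
  · intro b b' s hs hb W _ F hKF hF
    exact theta_three hs hb hF hKF

end Pool.Agent.Results.MP_80f86c_co.CompleteBipartiteThree
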