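import Pool.Agent.TH998.Mex.Fin

/-!
# Large cliques in `K_{a,b}`-free graphs with `m` edges

Bounds for the largest number of copies of `K_s` in a `K_{a,b}`-free graph with `m` edges for
`s ≥ a + 2`: the upper bound `O (m ^ (a (a + 1) / (2 (2 a - 1))))` for all `b`, and the lower bounds
`c m ^ (3 (a - 1) / (2 a - 1))` for all `s` and `c m ^ (s (2 a + 1 - s) / (2 (2 a - 1)))` for
`s ≤ 2 a`, when `b > (s - 2) (a - 1)!`.
-/

open Filter Asymptotics SimpleGraph Pool.Agent.H63R3.PTT Pool.Agent.TH998.Mex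

namespace Pool.Agent.Results.MP_80f86c_co.LargeCliqueBounds

theorem result (a b s : ℕ) (ha : 4 ≤ a) (hs : a + 2 ≤ s) :
    ((fun m : ℕ => (mex s m (completeBipartiteGraph (Fin a) (Fin b)) : ℝ)) =O[atTop]
      (fun m : ℕ => (m : ℝ) ^ ((a : ℝ) * (a + 1) / (2 * (2 * a - 1))))) ∧
    ((s - 2) * (a - 1).factorial < b →
      ((fun m : ℕ => (m : ℝ) ^ (3 * ((a : ℝ) - 1) / (2 * a - 1))) =O[atTop]
        (fun m : ℕ => (mex s m (completeBipartiteGraph (Fin a) (Fin b)) : ℝ))) ∧
      (s ≤ 2 * a →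
        (fun m : ℕ => (m : ℝ) ^ ((s : ℝ) * (2 * a + 1 - s) / (2 * (2 * a - 1)))) =O[atTop]
          (fun m : ℕ => (mex s m (completeBipartiteGraph (Fin a) (Fin b)) : ℝ)))) := by
  refine ⟨?_, fun hb => ⟨?_, fun hsa => ?_⟩⟩
  · have h := stacked_upper_large (a := a) (b := b) (s := s) (by omega) (by omega)
      (isStacked_self a b)
    have e : Pool.Agent.TH998.Mex.em a a = (a : ℝ) * (a + 1) / (2 * (2 * a - 1)) := by
      unfold Pool.Agent.TH998.Mex.em
      congr 1
      ring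
    rwa [e] at h
  · exact lower_mobius (by omega) (by omega) hb
  · exact lower_wide (by omega) (by omega) hsa hb

end Pool.Agent.Results.MP_80f86c_co.LargeCliqueBounds
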